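import Pool.Agent.Q66.SH.Stm

/-!
# Project SH (helper66), jobs DIAG and TEST
-/

set_option autoImplicit false

open Filter Topology
open scoped ENNReal

namespace Pool.Agent.Q256.SH

open Pool.Agent.Q66.SH

lemma rk1_apply {H : Type} [NormedAddCommGroup H] [InnerProductSpace ℂ H] (u v x : H) :
    rk1 u v x = (inner ℂ u x : ℂ) • v := rfl

/-- an injective extension -/
lemma exists_ext (L : ℕ) (σ : ℕ → ℕ) (hσ : Set.InjOn σ (Set.Iio L)) :
    ∃ τ : ℕ → ℕ, Function.Injective τ ∧ ∀ i < L, τ i = σ i := by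
  have hfin : (σ '' Set.Iio L).Finite := (Set.finite_Iio L).image σ
  have hinf : ((σ '' Set.Iio L)ᶜ).Infinite := hfin.infinite_compl
  let g := hinf.natEmbedding
  refine ⟨fun i => if i < L then σ i else (g i : ℕ), ?_, fun i hi => if_pos hi⟩
  intro i j hij
  change (if i < L then σ i else (g i : ℕ)) = (if j < L then σ j else (g j : ℕ)) at hij
  by_cases hi : i < L <;> by_cases hj : j < L
  · rw [if_pos hi, if_pos hj] at hij
    exact hσ hi hj hij
  · rw [if_pos hi, if_neg hj] at hij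
    exact absurd ⟨i, hi, hij⟩ (g j).2
  · rw [if_neg hi, if_pos hj] at hij
    exact absurd ⟨j, hj, hij.symm⟩ (g i).2
  · rw [if_neg hi, if_neg hj] at hij
    exact g.injective (Subtype.ext hij)

theorem t_DIAG : S_DIAG := by
  intro H _ _ _ b L σ ε c hσ hε hc hc0
  obtain ⟨τ, hτ, hτσ⟩ := exists_ext L σ hσ
  have hs0 : ∀ j, 0 ≤ (if j < L then c j else 0 : ℝ) := by
    intro j
    split_ifs with h
    · exact hc0 j h
    · exact le_rfl
  refine ⟨?_, hs0, ?_, fun i => b (τ i), fun i => ((ε i : ℝ) : ℂ) • b (τ i), ?_, ?_, ?_⟩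
  · intro i j hij
    show (if j < L then c j else 0 : ℝ) ≤ (if i < L then c i else 0 : ℝ)
    by_cases hj : j < L
    · rw [if_pos hj, if_pos (lt_of_le_of_lt hij hj)]
      exact hc i j hij hj
    · rw [if_neg hj]
      exact hs0 i
  · refine tendsto_const_nhds.congr' ?_
    filter_upwards [eventually_ge_atTop L] with i hi
    rw [if_neg (not_lt.2 hi)]
  · exact b.orthonormal.comp τ hτ
  · have h1 : Orthonormal ℂ (fun i => b (τ i)) := b.orthonormal.comp τ hτ
    rw [orthonormal_iff_ite] at h1 ⊢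
    intro i j
    rw [inner_smul_left, inner_smul_right, h1 i j]
    by_cases hij : i = j
    · subst hij
      rw [if_pos rfl]
      rcases hε i with h | h <;> rw [h] <;> simp
    · rw [if_neg hij]
      simp
  · intro x
    have h1 : (∑ i ∈ Finset.range L, ((ε i * c i : ℝ) : ℂ) • rk1 (b (σ i)) (b (σ i))) x =
        ∑ i ∈ Finset.range L, ((((if i < L then c i else 0 : ℝ) : ℂ)) * inner ℂ (b (τ i)) x) •
          (((ε i : ℝ) : ℂ) • b (τ i)) := by
      rw [ContinuousLinearMap.sum_apply]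
      refine Finset.sum_congr rfl fun i hi => ?_
      have hi' : i < L := Finset.mem_range.1 hi
      rw [ContinuousLinearMap.smul_apply, rk1_apply, if_pos hi', hτσ i hi', smul_smul, smul_smul]
      congr 1
      push_cast
      ring
    rw [h1]
    refine hasSum_sum_of_ne_finset_zero fun j hj => ?_
    have hj' : ¬ j < L := fun h => hj (Finset.mem_range.2 h)
    show ((((if j < L then c j else 0 : ℝ) : ℂ)) * inner ℂ (b (τ j)) x) • (((ε j : ℝ) : ℂ) • b (τ j)) = 0
    rw [if_neg hj']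
    simp

/-- the norm of a diagonal operator -/
lemma ins_diag (hD : S_DIAG) {H : Type} [NormedAddCommGroup H] [InnerProductSpace ℂ H] [CompleteSpace H]
    (b : HilbertBasis ℕ ℂ H) (q : ℝ≥0∞) (hq : q ≠ 0) (L : ℕ) (hL : 1 ≤ L) (σ : ℕ → ℕ) (ε c : ℕ → ℝ)
    (hσ : Set.InjOn σ (Set.Iio L)) (hε : ∀ i, ε i = 1 ∨ ε i = -1) (hc : ∀ i j, i ≤ j → j < L → c j ≤ c i)
    (hc0 : ∀ i < L, 0 ≤ c i) :
    InS q (∑ i ∈ Finset.range L, ((ε i * c i : ℝ) : ℂ) • rk1 (b (σ i)) (b (σ i))) (nq q c L) := by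
  refine ⟨_, hD H b L σ ε c hσ hε hc hc0, ?_⟩
  by_cases hqt : q = ∞
  · left
    refine ⟨hqt, ?_⟩
    rw [nq, if_pos hqt, if_pos (by omega : 0 < L)]
  · right
    have h0 : q.toReal ≠ 0 := (ENNReal.toReal_pos hq hqt).ne'
    have h1 : HasSum (fun j => (if j < L then c j else 0 : ℝ) ^ q.toReal)
        (∑ j ∈ Finset.range L, (if j < L then c j else 0 : ℝ) ^ q.toReal) := by
      refine hasSum_sum_of_ne_finset_zero fun j hj => ?_
      have hj' : ¬ j < L := fun h => hj (Finset.mem_range.2 h)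
      rw [if_neg hj', Real.zero_rpow h0]
    refine ⟨hqt, h1.summable, ?_⟩
    rw [nq, if_neg hqt, h1.tsum_eq]
    congr 1
    refine Finset.sum_congr rfl fun j hj => ?_
    rw [if_pos (Finset.mem_range.1 hj)]

theorem t_TEST (hD : S_DIAG) : S_TEST := by
  intro H _ _ _ b q p hq hE
  obtain ⟨J, hJ1, hJ2, hJ3⟩ := hE
  refine ⟨fun n => J (rk1 (b n) (b n)), ?_⟩
  intro L σ ε c hL hσ hε hc hc0
  -- single terms
  have hone : ∀ n, InS q (rk1 (b n) (b n)) (nq q (fun _ => 1) 1) := by
    intro n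
    have h := ins_diag hD b q hq 1 le_rfl (fun _ => n) (fun _ => 1) (fun _ => 1)
      (by
        intro i hi j hj _
        have hi' : i < 1 := hi
        have hj' : j < 1 := hj
        omega)
      (fun _ => Or.inl rfl) (fun _ _ _ _ => le_rfl) (fun _ _ => zero_le_one)
    simpa using h
  have hterm : ∀ i < L, InS q (((ε i * c i : ℝ) : ℂ) • rk1 (b (σ i)) (b (σ i))) (nq q (fun _ => c i) 1) := by
    intro i hi
    have h := ins_diag hD b q hq 1 le_rfl (fun _ => σ i) (fun _ => ε i) (fun _ => c i)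
      (by
        intro i hi j hj _
        have hi' : i < 1 := hi
        have hj' : j < 1 := hj
        omega)
      (fun _ => hε i) (fun _ _ _ _ => le_rfl) (fun _ _ => hc0 i hi)
    simpa using h
  have hpart : ∀ M, 1 ≤ M → M ≤ L →
      InS q (∑ i ∈ Finset.range M, ((ε i * c i : ℝ) : ℂ) • rk1 (b (σ i)) (b (σ i))) (nq q c M) := by
    intro M hM hML
    exact ins_diag hD b q hq M hM σ ε c
      (hσ.mono (fun i (hi : i < M) => (lt_of_lt_of_le hi hML : i < L))) hε
      (fun i j hij hj => hc i j hij (lt_of_lt_of_le hj hML)) (fun i hi => hc0 i (lt_of_lt_of_le hi hML))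
  have hJsum : ∀ M, 1 ≤ M → M ≤ L →
      J (∑ i ∈ Finset.range M, ((ε i * c i : ℝ) : ℂ) • rk1 (b (σ i)) (b (σ i))) =
        ∑ i ∈ Finset.range M, ((ε i * c i : ℝ) : ℂ) • J (rk1 (b (σ i)) (b (σ i))) := by
    intro M hM
    induction M, hM using Nat.le_induction with
    | base =>
      intro _
      rw [Finset.sum_range_one, Finset.sum_range_one]
      exact hJ2 _ _ _ (hone _)
    | succ M hM ih =>
      intro hML
      rw [Finset.sum_range_succ, Finset.sum_range_succ,
        hJ1 _ _ _ _ (hpart M hM (by omega)) (hterm M (by omega)), ih (by omega), hJ2 _ _ _ (hone _)]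
  have h := hJ3 _ _ (hpart L hL le_rfl)
  rw [hJsum L hL le_rfl] at h
  exact h

end Pool.Agent.Q256.SH
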